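import Pool.Agent.H25.CoulombBlocks

/-!
# Sharpness of the stability threshold for relativistic Coulomb matter, block formulation

At fixed `β = παz/2 ∈ (0,1]` the set `S_β` of stable couplings is an initial segment of `(0,∞)`,
and the two thresholds `α_c(β)` and `ᾱ_c(β)` are equal and finite.
-/

set_option autoImplicit false

namespace Pool.Agent.Results.MP_3f7055_mp.BlockThreshold

open Pool.Agent.H25.CoulombBlocks

/-- For every number `q ≥ 1` of blocks and every `β ∈ (0,1]`: stability at `(α₂, β)` implies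
stability at `(α₁, β)` for all `0 < α₁ < α₂`; there is a real number `a` such that for `α > 0`,
`α ≠ a`, stability holds if and only if `α < a`; and `α_c(β) = ᾱ_c(β) < ∞`. -/
theorem result (q : ℕ) (hq : 1 ≤ q) (β : ℝ) (hβ0 : 0 < β) (_hβ1 : β ≤ 1) :
    (∀ α₁ α₂ : ℝ, 0 < α₁ → α₁ < α₂ → Stable q α₂ (2 * β / (Real.pi * α₂)) →
      Stable q α₁ (2 * β / (Real.pi * α₁))) ∧
    (∃ a : ℝ, ∀ α : ℝ, 0 < α → α ≠ a → (Stable q α (2 * β / (Real.pi * α)) ↔ α < a)) ∧
    alphaC q β = alphaBar q β ∧ alphaBar q β < ⊤ := by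
  have hmono : ∀ α₁ α₂ : ℝ, 0 < α₁ → α₁ < α₂ → Stable q α₂ (2 * β / (Real.pi * α₂)) →
      Stable q α₁ (2 * β / (Real.pi * α₁)) := fun α₁ α₂ h1 h12 h =>
    (stableSet_down h1 h12.le ⟨h1.trans h12, h⟩).2
  obtain ⟨b, hb0, hb⟩ := stableSet_bdd hq hβ0
  have hbd : BddAbove (stableSet q β) := ⟨b, fun α hα => by
    by_contra hlt
    have h2 : α ∈ stableSet q β ∩ Set.Ioi b := ⟨hα, not_le.1 hlt⟩
    rw [hb] at h2
    exact h2⟩
  refine ⟨hmono, ⟨sSup (stableSet q β), fun α hα hne => ⟨fun h => ?_, fun h => ?_⟩⟩,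
    alphaC_eq_alphaBar, ?_⟩
  · exact lt_of_le_of_ne (le_csSup hbd ⟨hα, h⟩) hne
  · by_cases hem : (stableSet q β).Nonempty
    · obtain ⟨s, hs, hlt⟩ := exists_lt_of_lt_csSup hem h
      exact hmono α s hα hlt hs.2
    · rw [Set.not_nonempty_iff_eq_empty] at hem
      rw [hem, Real.sSup_empty] at h
      exact absurd h (not_lt.2 hα.le)
  · have h3 : alphaBar q β ≤ ENNReal.ofReal b := by
      unfold alphaBar
      exact iInf₂_le b ⟨hb0, hb⟩
    exact lt_of_le_of_lt h3 ENNReal.ofReal_lt_top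

end Pool.Agent.Results.MP_3f7055_mp.BlockThreshold
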